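import Mathlib
import Pool.Agent.H71.DST1

/-!
# A closed equivalence relation on a Polish space with uncountably many classes has a perfect set
of inequivalent points.
-/

set_option autoImplicit false
set_option linter.unusedSectionVars false

open Set Topology Filter MeasureTheory

namespace Pool.Agent.H4.TVI

theorem closed_relation {X : Type*} [TopologicalSpace X] [PolishSpace X] (r : Setoid X)
    (hr : IsClosed {p : X × X | r p.1 p.2}) (hunc : ¬ Countable (Quotient r)) :
    ∃ f : (ℕ → Bool) → X, Continuous f ∧ ∀ x y, x ≠ y → ¬ r (f x) (f y) := by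
  classical
  obtain ⟨b, hbc, -, hb⟩ := TopologicalSpace.exists_countable_basis X
  let mk : X → Quotient r := Quotient.mk r
  -- the small basic open sets
  set bad : Set (Set X) := {U ∈ b | (mk '' U).Countable} with hbad
  set W : Set X := ⋃₀ bad with hW
  have hWo : IsOpen W := isOpen_sUnion fun U hU => hb.isOpen hU.1
  have hWc : (mk '' W).Countable := by
    rw [hW, image_sUnion]
    refine Set.Countable.sUnion ((hbc.mono (fun U hU => hU.1)).image _) ?_
    rintro _ ⟨U, hU, rfl⟩
    exact hU.2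
  set Y : Set X := Wᶜ with hY
  have hYcl : IsClosed Y := hWo.isClosed_compl
  have hbig : ∀ U : Set X, IsOpen U → (mk '' (U ∩ Y)).Countable → U ∩ Y = ∅ := by
    intro U hU hc
    by_contra hne
    obtain ⟨x, hxU, hxY⟩ := nonempty_iff_ne_empty.2 hne
    obtain ⟨V, hVb, hxV, hVU⟩ := hb.exists_subset_of_mem_open hxU hU
    have hVc : (mk '' V).Countable := by
      refine (hc.union hWc).mono ?_
      rintro _ ⟨v, hv, rfl⟩
      by_cases hvW : v ∈ W
      · exact Or.inr ⟨v, hvW, rfl⟩
      · exact Or.inl ⟨v, ⟨hVU hv, hvW⟩, rfl⟩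
    exact hxY ⟨V, ⟨hVb, hVc⟩, hxV⟩
  have hYne : Y.Nonempty := by
    by_contra hcon
    rw [not_nonempty_iff_eq_empty, hY, compl_empty_iff] at hcon
    apply hunc
    rw [hcon, image_univ] at hWc
    have hs : range mk = univ := range_eq_univ.2 Quotient.mk_surjective
    rw [hs] at hWc
    exact countable_univ_iff.1 hWc
  have : Nonempty Y := hYne.to_subtype
  have : PolishSpace Y := hYcl.polishSpace
  have : PerfectSpace Y := by
    refine ⟨preperfect_iff_nhds.2 ?_⟩
    rintro ⟨x, hx⟩ - U hU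
    by_contra hcon
    push Not at hcon
    obtain ⟨V, hVU, hVo, hxV⟩ := mem_nhds_iff.1 hU
    obtain ⟨O, hO, rfl⟩ := isOpen_induced_iff.1 hVo
    have h1 : mk '' (O ∩ Y) ⊆ {mk x} := by
      rintro _ ⟨y, ⟨hyO, hyY⟩, rfl⟩
      have := hcon ⟨y, hyY⟩ ⟨hVU hyO, mem_univ _⟩
      rw [Subtype.mk.injEq] at this
      rw [this]
      rfl
    have h2 := hbig O hO ((countable_singleton _).mono h1)
    have h3 : x ∈ O ∩ Y := ⟨hxV, hx⟩
    rw [h2] at h3
    exact h3
  set R : Set (Y × Y) := {p | r (p.1 : X) (p.2 : X)} with hR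
  have hRc : IsClosed R := hr.preimage (by fun_prop : Continuous fun p : Y × Y =>
    ((p.1 : X), (p.2 : X)))
  have hRm : IsMeagre R := by
    refine IsNowhereDense.isMeagre ?_
    rw [hRc.isNowhereDense_iff]
    by_contra hcon
    obtain ⟨⟨x, y⟩, hxy⟩ := nonempty_iff_ne_empty.2 hcon
    obtain ⟨A, B, hA, hB, hxA, hyB, hAB⟩ := isOpen_prod_iff.1 isOpen_interior x y hxy
    obtain ⟨O, hO, rfl⟩ := isOpen_induced_iff.1 hA
    have h1 : mk '' (O ∩ Y) ⊆ {mk y} := by
      rintro _ ⟨a, ⟨haO, haY⟩, rfl⟩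
      have h3 : ((⟨a, haY⟩ : Y), y) ∈ R := interior_subset (hAB ⟨haO, hyB⟩)
      exact Quotient.sound h3
    have h2 := hbig O hO ((countable_singleton _).mono h1)
    have h3 : (x : X) ∈ O ∩ Y := ⟨hxA, x.2⟩
    rw [h2] at h3
    exact h3
  obtain ⟨f, hf, -, hf'⟩ := Pool.Agent.H71.DST.mycielski R hRm
  exact ⟨fun t => (f t : X), continuous_subtype_val.comp hf, fun x y hxy => hf' x y hxy⟩

end Pool.Agent.H4.TVI
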