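import Mathlib
import Pool.Agent.H71.DST1
import Pool.Agent.H71.DST2
import Pool.Agent.H71.DST3

/-!
# Effros' lemma for continuous actions of Polish groups (non-meagre orbits)
-/

set_option autoImplicit false
set_option linter.unusedSectionVars false

open Set Topology Filter MeasureTheory
open scoped Pointwise

namespace Pool.Agent.H4.TVI

variable {G Z : Type*} [Group G] [TopologicalSpace G] [IsTopologicalGroup G] [PolishSpace G]
  [TopologicalSpace Z] [PolishSpace Z] [MulAction G Z] [ContinuousSMul G Z]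

/-- meagreness is invariant under the action -/
lemma isMeagre_preimage_smul (g : G) {s : Set Z} (h : IsMeagre s) :
    IsMeagre ((fun x => g • x) ⁻¹' s) :=
  h.preimage_of_isOpenMap (continuous_const_smul g) (isOpenMap_smul g)

/-- the set `W • y` -/
def tr (W : Set G) (y : Z) : Set Z := (fun g : G => g • y) '' W

omit [IsTopologicalGroup G] in
lemma analyticSet_tr {W : Set G} (hW : IsOpen W) (y : Z) : AnalyticSet (tr W y) :=
  hW.analyticSet_image (continuous_id.smul continuous_const)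

/-- if the orbit is not meagre then `W • y` is not meagre. -/
lemma not_isMeagre_tr {y : Z} (hy : ¬ IsMeagre (MulAction.orbit G y)) {W : Set G}
    (hW : W ∈ 𝓝 (1 : G)) : ¬ IsMeagre (tr W y) := by
  intro h
  apply hy
  have hcov : MulAction.orbit G y ⊆ ⋃ n : ℕ, (fun x => (TopologicalSpace.denseSeq G n)⁻¹ • x) ⁻¹'
      (tr W y) := by
    rintro _ ⟨g, rfl⟩
    -- find `n` with `d_n⁻¹ * g ∈ W`
    have hcont : Tendsto (fun d : G => d⁻¹ * g) (𝓝 g) (𝓝 1) := by
      have : Continuous fun d : G => d⁻¹ * g := continuous_inv.mul continuous_const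
      have h1 := this.tendsto g
      rwa [inv_mul_cancel] at h1
    have hmem : (fun d : G => d⁻¹ * g) ⁻¹' W ∈ 𝓝 g := hcont hW
    obtain ⟨n, hn⟩ := (TopologicalSpace.denseRange_denseSeq G).exists_mem_open
      isOpen_interior ⟨g, mem_interior_iff_mem_nhds.2 hmem⟩
    have hd1 := interior_subset hn
    rw [mem_iUnion]
    refine ⟨n, ?_⟩
    refine ⟨_, hd1, ?_⟩
    simp only [mul_smul]
  exact (isMeagre_iUnion fun n => isMeagre_preimage_smul _ h).mono hcov

/-- if the orbit of `y` is not meagre, then `W⁻¹ W y` is comeagre in a neighbourhood of `y`. -/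
lemma comeagre_tr {y : Z} (hy : ¬ IsMeagre (MulAction.orbit G y)) {W : Set G} (hWo : IsOpen W)
    (hW : (1 : G) ∈ W) :
    ∃ O : Set Z, IsOpen O ∧ y ∈ O ∧ IsMeagre (O \ tr (W⁻¹ * W) y) := by
  have hn := not_isMeagre_tr hy (hWo.mem_nhds hW)
  obtain ⟨u, hu, hWu⟩ := (Pool.Agent.H71.DST.analyticSet_baireMeasurableSet
    (analyticSet_tr hWo y)).residualEq_isOpen
  have hdiff : IsMeagre (u \ tr W y) := by
    have : ∀ᶠ x in residual Z, x ∈ tr W y ↔ x ∈ u := by
      filter_upwards [hWu] with x hx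
      exact iff_of_eq hx
    refine this.mono fun x hx => ?_
    rintro ⟨h1, h2⟩
    exact h2 (hx.2 h1)
  have hdiff' : IsMeagre (tr W y \ u) := by
    have : ∀ᶠ x in residual Z, x ∈ tr W y ↔ x ∈ u := by
      filter_upwards [hWu] with x hx
      exact iff_of_eq hx
    refine this.mono fun x hx => ?_
    rintro ⟨h1, h2⟩
    exact h2 (hx.1 h1)
  have hune : u.Nonempty := by
    by_contra hcon
    rw [not_nonempty_iff_eq_empty] at hcon
    rw [hcon, sdiff_empty] at hdiff'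
    exact hn hdiff'
  have hint : (tr W y ∩ u).Nonempty := by
    by_contra hcon
    rw [not_nonempty_iff_eq_empty] at hcon
    have : u \ tr W y = u := by
      ext x
      constructor
      · exact fun h => h.1
      · intro h
        refine ⟨h, fun h' => ?_⟩
        have : x ∈ tr W y ∩ u := ⟨h', h⟩
        rw [hcon] at this
        exact this
    rw [this] at hdiff
    exact not_isMeagre_of_isOpen hu hune hdiff
  obtain ⟨_, ⟨w, hw, rfl⟩, hwu⟩ := hint
  refine ⟨(fun x => w • x) ⁻¹' u, hu.preimage (continuous_const_smul w), hwu, ?_⟩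
  refine (isMeagre_preimage_smul w hdiff).mono ?_
  rintro x ⟨h1, h2⟩
  refine ⟨h1, fun h3 => h2 ?_⟩
  obtain ⟨v, hv, hvx⟩ := h3
  refine ⟨w⁻¹ * v, mul_mem_mul (Set.inv_mem_inv.2 hw) hv, ?_⟩
  simp only [mul_smul] at hvx ⊢
  rw [hvx, inv_smul_smul]

/-- Effros: on a non-meagre orbit the orbit map is open. -/
lemma effros {z : Z} (hz : ¬ IsMeagre (MulAction.orbit G z)) {V : Set G} (hV : V ∈ 𝓝 (1 : G)) :
    ∃ O : Set Z, IsOpen O ∧ z ∈ O ∧ ∀ y ∈ MulAction.orbit G z, y ∈ O → y ∈ tr V z := by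
  -- an open neighbourhood `W` with `(W⁻¹ W)⁻¹ (W⁻¹ W) ⊆ V`
  have hc : Tendsto (fun p : (G × G) × (G × G) => (p.1.1⁻¹ * p.1.2)⁻¹ * (p.2.1⁻¹ * p.2.2))
      (𝓝 ((1, 1), (1, 1))) (𝓝 1) := by
    have : Continuous fun p : (G × G) × (G × G) => (p.1.1⁻¹ * p.1.2)⁻¹ * (p.2.1⁻¹ * p.2.2) := by
      fun_prop
    have h1 := this.tendsto ((1, 1), (1, 1))
    simpa using h1
  have hmem := hc hV
  rw [mem_map, nhds_prod_eq, nhds_prod_eq, Filter.mem_prod_iff] at hmem
  obtain ⟨t1, ht1, t2, ht2, hts⟩ := hmem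
  obtain ⟨a1, ha1, a2, ha2, h12⟩ := Filter.mem_prod_iff.1 ht1
  obtain ⟨a3, ha3, a4, ha4, h34⟩ := Filter.mem_prod_iff.1 ht2
  set W : Set G := interior (a1 ∩ a2 ∩ (a3 ∩ a4)) with hWdef
  have hWm : (1 : G) ∈ W := by
    rw [hWdef, mem_interior_iff_mem_nhds]
    exact inter_mem (inter_mem ha1 ha2) (inter_mem ha3 ha4)
  have hWo : IsOpen W := isOpen_interior
  have hWV : ∀ p ∈ W, ∀ q ∈ W, ∀ r ∈ W, ∀ s ∈ W, (p⁻¹ * q)⁻¹ * (r⁻¹ * s) ∈ V := by
    intro p hp q hq r hr s hs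
    have hp' := interior_subset hp
    have hq' := interior_subset hq
    have hr' := interior_subset hr
    have hs' := interior_subset hs
    exact hts (show ((p, q), (r, s)) ∈ t1 ×ˢ t2 from
      ⟨h12 ⟨hp'.1.1, hq'.1.2⟩, h34 ⟨hr'.2.1, hs'.2.2⟩⟩)
  obtain ⟨O, hO, hzO, hOm⟩ := comeagre_tr hz hWo hWm
  refine ⟨O, hO, hzO, fun y hy hyO => ?_⟩
  have hyo : MulAction.orbit G y = MulAction.orbit G z := MulAction.orbit_eq_iff.2 hy
  obtain ⟨O', hO', hyO', hOm'⟩ := comeagre_tr (y := y) (by rwa [hyo]) hWo hWm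
  have hnm : ¬ IsMeagre (O ∩ O') := not_isMeagre_of_isOpen (hO.inter hO') ⟨y, hyO, hyO'⟩
  have : ((O ∩ O') ∩ (tr (W⁻¹ * W) z ∩ tr (W⁻¹ * W) y)).Nonempty := by
    by_contra hcon
    rw [not_nonempty_iff_eq_empty] at hcon
    apply hnm
    refine (hOm.union hOm').mono ?_
    intro x hx
    by_cases h1 : x ∈ tr (W⁻¹ * W) z
    · right
      refine ⟨hx.2, fun h2 => ?_⟩
      have : x ∈ (O ∩ O') ∩ (tr (W⁻¹ * W) z ∩ tr (W⁻¹ * W) y) := ⟨hx, h1, h2⟩
      rw [hcon] at this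
      exact this
    · left
      exact ⟨hx.1, h1⟩
  obtain ⟨x, _, ⟨a, ha, hax⟩, ⟨b, hb, hbx⟩⟩ := this
  obtain ⟨p, hp, q, hq, rfl⟩ := ha
  obtain ⟨r, hr, s, hs, rfl⟩ := hb
  rw [Set.mem_inv] at hp hr
  refine ⟨(r * s)⁻¹ * (p * q), ?_, ?_⟩
  · have := hWV r⁻¹ hr s hs p⁻¹ hp q hq
    simpa using this
  · have h3 : (p * q) • z = (r * s) • y := by
      have h4 : (p * q) • z = x := hax
      have h5 : (r * s) • y = x := hbx
      rw [h4, h5]
    change ((r * s)⁻¹ * (p * q)) • z = y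
    rw [mul_smul, h3, inv_smul_smul]

end Pool.Agent.H4.TVI
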