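import Mathlib
import Pool.Agent.H4.TVI.Effros

/-!
# Isometric actions of Polish groups whose left completion has countably many orbits
-/

set_option autoImplicit false
set_option linter.unusedSectionVars false

open Set Topology Filter MeasureTheory
open scoped Pointwise

namespace Pool.Agent.H4.TVI

/-- a sequence which is Cauchy for the left uniformity of `G` -/
def LeftCauchy {G : Type*} [Group G] [TopologicalSpace G] (g : ℕ → G) : Prop :=
  ∀ V ∈ 𝓝 (1 : G), ∃ N, ∀ m ≥ N, ∀ n ≥ N, (g m)⁻¹ * g n ∈ V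

/-- the left completion of `G` consists of countably many left `G`-orbits -/
def CountablyManyLeftOrbits (G : Type*) [Group G] [TopologicalSpace G] : Prop :=
  ∃ c : ℕ → ℕ → G, ∀ g : ℕ → G, LeftCauchy g →
    ∃ (i : ℕ) (h : G), Tendsto (fun n => (g n)⁻¹ * (h * c i n)) atTop (𝓝 1)

section dense

variable {G Z : Type*} [Group G] [TopologicalSpace G] [IsTopologicalGroup G] [PolishSpace G]
  [MetricSpace Z] [CompleteSpace Z] [SecondCountableTopology Z] [MulAction G Z]
  [ContinuousSMul G Z] [IsIsometricSMul G Z]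

/-- every point of the closure of a non-meagre orbit is a limit along a left-Cauchy sequence -/
lemma exists_leftCauchy {z : Z} (hz : ¬ IsMeagre (MulAction.orbit G z)) (z' : Z)
    (hz' : z' ∈ closure (MulAction.orbit G z)) :
    ∃ g : ℕ → G, LeftCauchy g ∧ Tendsto (fun n => g n • z) atTop (𝓝 z') := by
  obtain ⟨u, hu, huu⟩ := IsTopologicalGroup.exists_antitone_basis_nhds_one G
  have hu1 : ∀ n, u n ∈ 𝓝 (1 : G) := fun n => hu.1.mem_of_mem trivial
  -- radii
  have hε : ∀ n, ∃ ε > 0, ∀ y ∈ MulAction.orbit G z, dist y z < ε → y ∈ tr (u (n + 1)) z := by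
    intro n
    obtain ⟨O, hO, hzO, h⟩ := effros hz (hu1 (n + 1))
    obtain ⟨ε, hε, hball⟩ := Metric.isOpen_iff.1 hO z hzO
    exact ⟨ε, hε, fun y hy hd => h y hy (hball hd)⟩
  choose ε hε0 hε using hε
  set ρ : ℕ → ℝ := fun n => min (ε n / 2) (1 / (n + 1)) with hρ
  have hρ0 : ∀ n, 0 < ρ n := fun n => lt_min (half_pos (hε0 n)) (by positivity)
  have hclose : ∀ r > 0, ∃ g : G, dist (g • z) z' < r := by
    intro r hr
    obtain ⟨_, ⟨g, rfl⟩, hg⟩ := Metric.mem_closure_iff.1 hz' r hr
    exact ⟨g, by rwa [dist_comm] at hg⟩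
  have hstep : ∀ (n : ℕ) (g : {g : G // dist (g • z) z' < ρ n}),
      ∃ g' : {g : G // dist (g • z) z' < ρ (n + 1)}, (g : G)⁻¹ * (g' : G) ∈ u (n + 1) := by
    rintro n ⟨g, hg⟩
    obtain ⟨k, hk⟩ := hclose (min (ε n / 2) (ρ (n + 1))) (lt_min (half_pos (hε0 n)) (hρ0 _))
    have hd : dist ((g⁻¹ * k) • z) z < ε n := by
      have h1 : dist ((g⁻¹ * k) • z) z = dist (k • z) (g • z) := by
        rw [← dist_smul g, ← mul_smul, mul_inv_cancel_left]
      rw [h1]
      calc dist (k • z) (g • z) ≤ dist (k • z) z' + dist (g • z) z' := dist_triangle_right _ _ _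
        _ < ε n / 2 + ε n / 2 := add_lt_add (hk.trans_le (min_le_left _ _))
            (hg.trans_le (min_le_left _ _))
        _ = ε n := add_halves _
    obtain ⟨v, hv, hvz⟩ := hε n _ ⟨g⁻¹ * k, rfl⟩ hd
    have hvz' : v • z = (g⁻¹ * k) • z := hvz
    refine ⟨⟨g * v, ?_⟩, ?_⟩
    · rw [mul_smul, hvz', ← mul_smul, mul_inv_cancel_left]
      exact hk.trans_le (min_le_right _ _)
    · simpa using hv
  choose next hnext using hstep
  obtain ⟨g0, hg0⟩ := hclose (ρ 0) (hρ0 0)
  let s : (n : ℕ) → {g : G // dist (g • z) z' < ρ n} := fun n =>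
    Nat.rec (motive := fun n => {g : G // dist (g • z) z' < ρ n}) ⟨g0, hg0⟩
      (fun n g => next n g) n
  have hs : ∀ n, (s n).1⁻¹ * (s (n + 1)).1 ∈ u (n + 1) := fun n => hnext n (s n)
  refine ⟨fun n => (s n).1, ?_, ?_⟩
  · -- left Cauchy
    have key : ∀ k m : ℕ, (s m).1⁻¹ * (s (m + k)).1 ∈ u m := by
      intro k
      induction k with
      | zero =>
        intro m
        have : (s m).1⁻¹ * (s (m + 0)).1 = 1 := inv_mul_cancel _
        rw [this]
        exact mem_of_mem_nhds (hu1 m)
      | succ k ih =>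
        intro m
        have h1 := ih (m + 1)
        have h2 := hs m
        have h3 := huu m (mul_mem_mul h2 h1)
        have : (s m).1⁻¹ * (s (m + 1)).1 * ((s (m + 1)).1⁻¹ * (s (m + 1 + k)).1) =
            (s m).1⁻¹ * (s (m + (k + 1))).1 := by
          rw [mul_assoc, mul_inv_cancel_left, show m + 1 + k = m + (k + 1) by ring]
        rwa [this] at h3
    intro V hV
    have hV' : V ∩ V⁻¹ ∈ 𝓝 (1 : G) := by
      refine inter_mem hV ?_
      have := inv_mem_nhds_one G hV
      exact this
    obtain ⟨N, hN⟩ := hu.1.mem_iff.1 hV'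
    refine ⟨N, fun m hm n hn => ?_⟩
    rcases le_total m n with h | h
    · obtain ⟨k, rfl⟩ := Nat.exists_eq_add_of_le h
      exact (hN.2 (hu.2 hm (key k m))).1
    · obtain ⟨k, rfl⟩ := Nat.exists_eq_add_of_le h
      have h1 := (hN.2 (hu.2 hn (key k n))).2
      rw [Set.mem_inv] at h1
      simpa using h1
  · rw [tendsto_iff_dist_tendsto_zero]
    refine squeeze_zero (fun n => dist_nonneg) (fun n => ((s n).2.trans_le
      (min_le_right _ _)).le) tendsto_one_div_add_atTop_nhds_zero_nat

/-- under (SC), if all orbits are dense and some orbit is not meagre then there are only countably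
many orbits. -/
lemma countable_of_not_meagre (hG : CountablyManyLeftOrbits G)
    (hd : ∀ z : Z, Dense (MulAction.orbit G z)) {z : Z}
    (hz : ¬ IsMeagre (MulAction.orbit G z)) : Countable (Quotient (MulAction.orbitRel G Z)) := by
  classical
  obtain ⟨c, hc⟩ := hG
  let F : ℕ → Quotient (MulAction.orbitRel G Z) := fun i =>
    if h : ∃ w, Tendsto (fun n => c i n • z) atTop (𝓝 w) then ⟦h.choose⟧ else ⟦z⟧
  refine Function.Surjective.countable (f := F) ?_
  intro q
  induction q using Quotient.inductionOn with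
  | h z' =>
    obtain ⟨g, hg, hgz⟩ := exists_leftCauchy hz z' (hd z z')
    obtain ⟨i, h, hih⟩ := hc g hg
    refine ⟨i, ?_⟩
    have h1 : Tendsto (fun n => ((g n)⁻¹ * (h * c i n)) • z) atTop (𝓝 z) := by
      have := hih.smul_const z
      simpa using this
    have h2 : Tendsto (fun n => (h * c i n) • z) atTop (𝓝 z') := by
      rw [tendsto_iff_dist_tendsto_zero] at h1 hgz ⊢
      have h3 := h1.add hgz
      rw [add_zero] at h3
      refine squeeze_zero (fun n => dist_nonneg) (fun n => ?_) h3
      have h4 : dist (((g n)⁻¹ * (h * c i n)) • z) z = dist ((h * c i n) • z) (g n • z) := by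
        rw [← dist_smul (g n), ← mul_smul, mul_inv_cancel_left]
      rw [h4]
      exact dist_triangle _ _ _
    have h5 : Tendsto (fun n => c i n • z) atTop (𝓝 (h⁻¹ • z')) := by
      have := h2.const_smul h⁻¹
      refine this.congr fun n => ?_
      rw [mul_smul, inv_smul_smul]
    have hex : ∃ w, Tendsto (fun n => c i n • z) atTop (𝓝 w) := ⟨_, h5⟩
    have hF : F i = ⟦hex.choose⟧ := dif_pos hex
    rw [hF]
    have huniq : hex.choose = h⁻¹ • z' := tendsto_nhds_unique hex.choose_spec h5
    rw [huniq]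
    refine Quotient.sound ?_
    exact ⟨h⁻¹, rfl⟩

/-- if all orbits are meagre then there are perfectly many orbits -/
lemma perfect_of_meagre [Nonempty Z] (hz : ∀ z : Z, IsMeagre (MulAction.orbit G z)) :
    ∃ f : (ℕ → Bool) → Z, Continuous f ∧
      ∀ x y, x ≠ y → f y ∉ MulAction.orbit G (f x) := by
  have hperf : PerfectSpace Z := by
    refine ⟨fun x _ => ?_⟩
    rw [accPt_principal_iff_nhdsWithin]
    by_contra hcon
    rw [not_neBot] at hcon
    have hop : IsOpen ({x} : Set Z) := by
      rw [isOpen_singleton_iff_punctured_nhds]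
      have : (univ \ {x} : Set Z) = {x}ᶜ := by ext; simp
      rwa [this] at hcon
    refine not_isMeagre_of_isOpen hop (singleton_nonempty x) ((hz x).mono ?_)
    rw [singleton_subset_iff]
    exact MulAction.mem_orbit_self x
  set R : Set (Z × Z) := range (fun p : G × Z => (p.2, p.1 • p.2)) with hR
  have hRa : AnalyticSet R := by
    refine MeasureTheory.analyticSet_range_of_polishSpace ?_
    exact continuous_snd.prodMk (continuous_fst.smul continuous_snd)
  have hRm : IsMeagre R := by
    refine Pool.Agent.H71.DST.kuratowskiUlam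
      (Pool.Agent.H71.DST.analyticSet_baireMeasurableSet hRa) (Eventually.of_forall fun x => ?_)
    refine (hz x).mono ?_
    rintro y ⟨⟨g, x'⟩, hg⟩
    obtain ⟨rfl, rfl⟩ := Prod.mk.inj hg
    exact ⟨g, rfl⟩
  obtain ⟨f, hf, -, hf'⟩ := Pool.Agent.H71.DST.mycielski R hRm
  refine ⟨f, hf, fun x y hxy hmem => hf' x y hxy ?_⟩
  obtain ⟨g, hg⟩ := hmem
  exact ⟨(g, f x), Prod.ext rfl hg⟩

end dense

end Pool.Agent.H4.TVI
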