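import Mathlib
import Pool.Agent.H4.TVI.Main
import Pool.Agent.H4.TVI.Closed

/-!
# The dichotomy for isometric actions
-/

set_option autoImplicit false
set_option linter.unusedSectionVars false

open Set Topology Filter MeasureTheory

namespace Pool.Agent.H4.TVI

section setoid

variable (G Z : Type*) [Group G] [MetricSpace Z] [MulAction G Z] [IsIsometricSMul G Z]

/-- `y` lies in the closure of the orbit of `z` -/
def oc : Setoid Z where
  r z y := ∀ ε > 0, ∃ g : G, dist y (g • z) < ε
  iseqv := by
    refine ⟨fun z ε hε => ⟨1, by simpa using hε⟩, ?_, ?_⟩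
    · intro z y h ε hε
      obtain ⟨g, hg⟩ := h ε hε
      refine ⟨g⁻¹, ?_⟩
      rw [← dist_smul g, smul_inv_smul, dist_comm]
      exact hg
    · intro x y z hxy hyz ε hε
      obtain ⟨g, hg⟩ := hxy (ε / 2) (half_pos hε)
      obtain ⟨h, hh⟩ := hyz (ε / 2) (half_pos hε)
      refine ⟨h * g, ?_⟩
      calc dist z ((h * g) • x) ≤ dist z (h • y) + dist (h • y) ((h * g) • x) :=
            dist_triangle _ _ _
        _ = dist z (h • y) + dist y (g • x) := by rw [mul_smul, dist_smul]
        _ < ε / 2 + ε / 2 := add_lt_add hh hg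
        _ = ε := add_halves _

variable {G Z}

lemma oc_iff {z y : Z} : oc G Z z y ↔ ∀ ε > 0, ∃ g : G, dist y (g • z) < ε := Iff.rfl

lemma oc_iff_closure {z y : Z} : oc G Z z y ↔ y ∈ closure (MulAction.orbit G z) := by
  rw [Metric.mem_closure_iff, oc_iff]
  constructor
  · intro h ε hε
    obtain ⟨g, hg⟩ := h ε hε
    exact ⟨_, ⟨g, rfl⟩, hg⟩
  · intro h ε hε
    obtain ⟨_, ⟨g, rfl⟩, hg⟩ := h ε hε
    exact ⟨g, hg⟩

lemma isClosed_oc : IsClosed {p : Z × Z | oc G Z p.1 p.2} := by
  rw [← isOpen_compl_iff, Metric.isOpen_iff]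
  rintro ⟨z, y⟩ h
  have h' : ¬ ∀ ε > 0, ∃ g : G, dist y (g • z) < ε := h
  push Not at h'
  obtain ⟨ε, hε, h'⟩ := h'
  refine ⟨ε / 3, by positivity, ?_⟩
  rintro ⟨z', y'⟩ hzy hcon
  obtain ⟨g, hg⟩ := (hcon : ∀ ε > 0, ∃ g : G, dist y' (g • z') < ε) (ε / 3) (by positivity)
  rw [Metric.mem_ball, Prod.dist_eq, max_lt_iff] at hzy
  have h1 : dist (g • z') (g • z) < ε / 3 := by rw [dist_smul]; exact hzy.1
  have h2 : dist y y' < ε / 3 := by rw [dist_comm]; exact hzy.2
  have := h' g
  have h3 : dist y (g • z) ≤ dist y y' + dist y' (g • z') + dist (g • z') (g • z) :=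
    dist_triangle4 _ _ _ _
  linarith

lemma oc_smul (z : Z) (g : G) : oc G Z z (g • z) := fun ε hε => ⟨g, by simpa using hε⟩

lemma oc_of_mem_orbit {z y : Z} (h : y ∈ MulAction.orbit G z) : oc G Z z y := by
  obtain ⟨g, rfl⟩ := h
  exact oc_smul z g

/-- the closure of the orbit of `z` as a `G`-space -/
def piece (G : Type*) {Z : Type*} [Group G] [MetricSpace Z] [MulAction G Z]
    [IsIsometricSMul G Z] (z : Z) : SubMulAction G Z where
  carrier := {y | oc G Z z y}
  smul_mem' := fun g _ hy => (oc G Z).trans hy (oc_smul _ g)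

lemma mem_piece {z y : Z} : y ∈ piece G z ↔ oc G Z z y := Iff.rfl

lemma isClosed_piece (z : Z) : IsClosed {y | oc G Z z y} :=
  isClosed_oc.preimage (by fun_prop : Continuous fun y : Z => (z, y))

end setoid

section main

variable {G Z : Type*} [Group G] [TopologicalSpace G] [IsTopologicalGroup G] [PolishSpace G]
  [MetricSpace Z] [CompleteSpace Z] [SecondCountableTopology Z] [MulAction G Z]
  [ContinuousSMul G Z] [IsIsometricSMul G Z]

lemma piece_dichotomy (hG : CountablyManyLeftOrbits G) (z : Z) :
    Countable (Quotient (MulAction.orbitRel G (piece G z))) ∨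
    ∃ f : (ℕ → Bool) → Z, Continuous f ∧ ∀ x y, x ≠ y → f y ∉ MulAction.orbit G (f x) := by
  have hcl : IsClosed {y | oc G Z z y} := isClosed_piece z
  have : CompleteSpace (piece G z) := hcl.completeSpace_coe
  have : ContinuousSMul G (piece G z) := by
    refine ⟨?_⟩
    refine Continuous.subtype_mk ?_ _
    exact continuous_fst.smul (continuous_subtype_val.comp continuous_snd)
  have : IsIsometricSMul G (piece G z) := by
    refine ⟨fun g => ?_⟩
    refine Isometry.of_dist_eq fun x y => ?_
    exact dist_smul g (x : Z) (y : Z)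
  have : Nonempty (piece G z) := ⟨⟨z, (oc G Z).refl z⟩⟩
  by_cases h : ∃ w : piece G z, ¬ IsMeagre (MulAction.orbit G w)
  · left
    obtain ⟨w, hw⟩ := h
    refine countable_of_not_meagre hG (fun x y => ?_) hw
    rw [Metric.mem_closure_iff]
    intro ε hε
    have hxy : oc G Z (x : Z) (y : Z) := (oc G Z).trans ((oc G Z).symm x.2) y.2
    obtain ⟨g, hg⟩ := hxy ε hε
    exact ⟨g • x, ⟨g, rfl⟩, hg⟩
  · right
    push Not at h
    obtain ⟨f, hf, hf'⟩ := perfect_of_meagre (G := G) h
    refine ⟨fun t => (f t : Z), continuous_subtype_val.comp hf, fun x y hxy hmem => ?_⟩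
    obtain ⟨g, hg⟩ := hmem
    exact hf' x y hxy ⟨g, Subtype.ext hg⟩

/-- **Isometric actions.** If the left completion of `G` has only countably many left `G`-orbits
then every continuous isometric action of `G` on a separable complete metric space has countably
or perfectly many orbits. -/
theorem dichotomy (hG : CountablyManyLeftOrbits G) :
    Countable (Quotient (MulAction.orbitRel G Z)) ∨
    ∃ f : (ℕ → Bool) → Z, Continuous f ∧ ∀ x y, x ≠ y → f y ∉ MulAction.orbit G (f x) := by
  by_cases hunc : Countable (Quotient (oc G Z))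
  · by_cases hall : ∀ z : Z, Countable (Quotient (MulAction.orbitRel G (piece G z)))
    · left
      let F : (Σ q : Quotient (oc G Z), Quotient (MulAction.orbitRel G (piece G q.out))) →
          Quotient (MulAction.orbitRel G Z) := fun p =>
        Quotient.map' (fun x : piece G p.1.out => (x : Z)) (by
          rintro a b ⟨g, hg⟩
          exact ⟨g, congrArg Subtype.val hg⟩) p.2
      have hF : Function.Surjective F := by
        intro c
        induction c using Quotient.inductionOn with
        | h x =>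
          have hx : oc G Z (Quotient.mk (oc G Z) x).out x := Quotient.mk_out x
          exact ⟨⟨Quotient.mk (oc G Z) x, Quotient.mk'' ⟨x, hx⟩⟩, rfl⟩
      exact hF.countable
    · push Not at hall
      obtain ⟨z, hz⟩ := hall
      right
      rcases piece_dichotomy hG z with h | h
      · exact absurd h (not_countable_iff.2 hz)
      · exact h
  · right
    obtain ⟨f, hf, hf'⟩ := closed_relation (oc G Z) isClosed_oc hunc
    exact ⟨f, hf, fun x y hxy hmem => hf' x y hxy (oc_of_mem_orbit hmem)⟩

end main

end Pool.Agent.H4.TVI
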