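import Mathlib
import Pool.Agent.H71.PermTop
import Pool.Agent.H4.TVI.Dichotomy

/-!
# Supports of points in isometric actions of the symmetric group of `ℕ`
-/

set_option autoImplicit false
set_option linter.unusedSectionVars false

open Set Topology Filter MeasureTheory

namespace Pool.Agent.H4.TVI

attribute [local instance] Pool.Agent.H71.permTop

/-- finite partial injections extend to permutations -/
lemma exists_perm_extend (E : Finset ℕ) (f : ℕ → ℕ) (hf : Set.InjOn f E) :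
    ∃ σ : Equiv.Perm ℕ, ∀ a ∈ E, σ a = f a := by
  classical
  induction E using Finset.induction_on with
  | empty => exact ⟨1, fun a ha => absurd ha (Finset.notMem_empty a)⟩
  | insert a E ha ih =>
    obtain ⟨σ, hσ⟩ := ih (hf.mono (by simp))
    refine ⟨Equiv.swap (σ a) (f a) * σ, fun b hb => ?_⟩
    rw [Equiv.Perm.mul_apply]
    rcases Finset.mem_insert.1 hb with rfl | hb'
    · exact Equiv.swap_apply_left _ _
    · have hne : b ≠ a := fun h => ha (h ▸ hb')
      rw [Equiv.swap_apply_of_ne_of_ne]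
      · exact hσ b hb'
      · exact fun h => hne (σ.injective h)
      · rw [hσ b hb']
        exact fun h => hne (hf (by simp [hb']) (by simp) h)

section

variable {Z : Type*} [MetricSpace Z] [MulAction (Equiv.Perm ℕ) Z]
  [IsIsometricSMul (Equiv.Perm ℕ) Z]

/-- `F` is an `ε`-support of `z` -/
def Supp (z : Z) (ε : ℝ) (F : Finset ℕ) : Prop :=
  ∀ σ : Equiv.Perm ℕ, (∀ a ∈ F, σ a = a) → dist (σ • z) z ≤ ε

lemma exists_supp [ContinuousSMul (Equiv.Perm ℕ) Z] (z : Z) {ε : ℝ} (hε : 0 < ε) :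
    ∃ F, Supp z ε F := by
  by_contra hcon
  have h : ∀ n : ℕ, ∃ σ : Equiv.Perm ℕ, (∀ a ∈ Finset.range n, σ a = a) ∧
      ε < dist (σ • z) z := by
    intro n
    by_contra hn
    push Not at hn
    exact hcon ⟨Finset.range n, fun σ hσ => hn σ hσ⟩
  choose σ hσ hσ' using h
  have hev : ∀ a : ℕ, ∀ᶠ n in atTop, σ n a = a := by
    intro a
    filter_upwards [eventually_gt_atTop a] with n hn
    exact hσ n a (Finset.mem_range.2 hn)
  have h1 : Tendsto σ atTop (𝓝 1) := by
    refine Pool.Agent.H71.tendsto_perm hev fun a => ?_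
    filter_upwards [hev a] with n hn
    change (σ n).symm a = a
    rw [Equiv.symm_apply_eq, hn]
  have h2 : Tendsto (fun n => σ n • z) atTop (𝓝 ((1 : Equiv.Perm ℕ) • z)) := h1.smul_const z
  rw [one_smul, tendsto_iff_dist_tendsto_zero] at h2
  have h3 := h2.eventually (gt_mem_nhds hε)
  obtain ⟨n, hn⟩ := h3.exists
  exact absurd hn (not_lt.2 (hσ' n).le)

lemma supp_inter {z : Z} {ε η : ℝ} {F F' : Finset ℕ} (hF : Supp z ε F) (hF' : Supp z η F') :
    Supp z (ε + 2 * η) (F ∩ F') := by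
  classical
  intro σ hσ
  set S : Finset ℕ := F' ∪ (F ∪ F').image σ.symm with hS
  set M : ℕ := S.sup id + 1 with hM
  have hMS : ∀ d : ℕ, d + M ∉ S := by
    intro d hd
    have : d + M ≤ S.sup id := Finset.le_sup (f := id) hd
    omega
  have hMF' : ∀ d : ℕ, d + M ∉ F' := fun d hd => hMS d (Finset.mem_union_left _ hd)
  have hMσ : ∀ d : ℕ, σ (d + M) ∉ F ∪ F' := by
    intro d hd
    refine hMS d (Finset.mem_union_right _ ?_)
    exact Finset.mem_image.2 ⟨σ (d + M), hd, by simp⟩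
  obtain ⟨ρ, hρ⟩ := exists_perm_extend (F' ∪ F) (fun a => if a ∈ F' then a else a + M) (by
    intro a _ b _ hab
    simp only at hab
    split_ifs at hab with h1 h2 h2
    · exact hab
    · exact absurd (hab ▸ h1) (hMF' b)
    · exact absurd (hab.symm ▸ h2) (hMF' a)
    · omega)
  set θ : Equiv.Perm ℕ := σ * ρ with hθ
  have hθ1 : ∀ a ∈ F ∩ F', θ a = a := by
    intro a ha
    have h1 := hρ a (Finset.mem_union_left _ (Finset.mem_inter.1 ha).2)
    rw [if_pos (Finset.mem_inter.1 ha).2] at h1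
    rw [hθ, Equiv.Perm.mul_apply, h1, hσ a ha]
  have hθ2 : ∀ a ∈ F, a ∉ F' → θ a ∉ F ∪ F' := by
    intro a ha ha'
    have h1 := hρ a (Finset.mem_union_right _ ha)
    rw [if_neg ha'] at h1
    rw [hθ, Equiv.Perm.mul_apply, h1]
    exact hMσ a
  obtain ⟨μ, hμ⟩ := exists_perm_extend (F' ∪ F) (fun a => if a ∈ F' then a else θ a) (by
    intro a ha b hb hab
    have ha0 : a ∈ F' ∪ F := ha
    have hb0 : b ∈ F' ∪ F := hb
    simp only at hab
    split_ifs at hab with h1 h2 h2
    · exact hab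
    · have hbF : b ∈ F := (Finset.mem_union.1 hb0).resolve_left h2
      exact absurd (Finset.mem_union_right _ (hab ▸ h1)) (hθ2 b hbF h2)
    · have haF : a ∈ F := (Finset.mem_union.1 ha0).resolve_left h1
      exact absurd (Finset.mem_union_right _ (hab.symm ▸ h2)) (hθ2 a haF h1)
    · exact θ.injective hab)
  have hρd : dist (ρ • z) z ≤ η := hF' ρ fun a ha => by
    have := hρ a (Finset.mem_union_left _ ha)
    rwa [if_pos ha] at this
  have hμd : dist (μ • z) z ≤ η := hF' μ fun a ha => by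
    have := hμ a (Finset.mem_union_left _ ha)
    rwa [if_pos ha] at this
  have hνd : dist ((μ⁻¹ * θ) • z) z ≤ ε := hF _ fun a ha => by
    rw [Equiv.Perm.mul_apply, Equiv.Perm.inv_eq_iff_eq]
    have h1 := hμ a (Finset.mem_union_right _ ha)
    by_cases h : a ∈ F'
    · rw [if_pos h] at h1
      rw [h1, hθ1 a (Finset.mem_inter.2 ⟨ha, h⟩)]
    · rw [if_neg h] at h1
      exact h1.symm
  have h1 : dist (σ • z) (θ • z) = dist (ρ • z) z := by
    rw [hθ, mul_smul, dist_smul, dist_comm]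
  have h2 : dist (θ • z) (μ • z) = dist ((μ⁻¹ * θ) • z) z := by
    rw [← dist_smul μ ((μ⁻¹ * θ) • z) z, ← mul_smul, mul_inv_cancel_left]
  calc dist (σ • z) z ≤ dist (σ • z) (θ • z) + dist (θ • z) (μ • z) + dist (μ • z) z :=
        dist_triangle4 _ _ _ _
    _ ≤ η + ε + η := by rw [h1, h2]; exact add_le_add (add_le_add hρd hνd) hμd
    _ = ε + 2 * η := by ring

lemma Supp.mono {z : Z} {ε ε' : ℝ} {F : Finset ℕ} (h : Supp z ε F) (hε : ε ≤ ε') :
    Supp z ε' F := fun σ hσ => (h σ hσ).trans hε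

/-- `a` is essential for `z` -/
def Ess (z : Z) (a : ℕ) : Prop := ∃ ε > 0, ∀ F, Supp z ε F → a ∈ F

lemma exists_supp_avoid [ContinuousSMul (Equiv.Perm ℕ) Z] (z : Z) (B : Finset ℕ)
    (hB : ∀ b ∈ B, ¬ Ess z b) {δ η : ℝ} (hη : 0 < η) {F : Finset ℕ} (hF : Supp z δ F) :
    ∃ F', F' ⊆ F ∧ Disjoint F' B ∧ Supp z (δ + η) F' := by
  classical
  induction B using Finset.induction_on generalizing η with
  | empty => exact ⟨F, Finset.Subset.refl _, Finset.disjoint_empty_right _,
      hF.mono (by linarith)⟩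
  | insert b B hb ih =>
    obtain ⟨F', hF'F, hd, hF'⟩ := ih (fun c hc => hB c (Finset.mem_insert_of_mem hc))
      (half_pos hη)
    have hb' := hB b (Finset.mem_insert_self _ _)
    rw [Ess] at hb'
    push Not at hb'
    obtain ⟨E, hE, hbE⟩ := hb' (η / 4) (by positivity)
    refine ⟨F' ∩ E, Finset.inter_subset_left.trans hF'F, ?_, ?_⟩
    · rw [Finset.disjoint_insert_right]
      refine ⟨fun h => hbE (Finset.mem_inter.1 h).2, ?_⟩
      exact hd.mono_left Finset.inter_subset_left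
    · exact (supp_inter hF' hE).mono (by linarith)

/-- the essential points form a support -/
lemma exists_supp_ess [ContinuousSMul (Equiv.Perm ℕ) Z] (z : Z) {ε : ℝ} (hε : 0 < ε) :
    ∃ F, Supp z ε F ∧ ∀ a ∈ F, Ess z a := by
  classical
  obtain ⟨F, hF⟩ := exists_supp z (half_pos hε)
  obtain ⟨F', hF'F, hd, hF'⟩ := exists_supp_avoid z (F.filter fun a => ¬ Ess z a)
    (fun b hb => (Finset.mem_filter.1 hb).2) (half_pos hε) hF
  refine ⟨F', hF'.mono (by linarith), fun a ha => ?_⟩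
  by_contra hcon
  exact Finset.disjoint_left.1 hd ha (Finset.mem_filter.2 ⟨hF'F ha, hcon⟩)

/-- along an ultrafilter `𝒰` on the group such that `g • z` converges, `g a` is eventually
constant for every essential `a`. -/
lemma ess_limit [ContinuousSMul (Equiv.Perm ℕ) Z] {z w : Z} {U : Ultrafilter (Equiv.Perm ℕ)}
    (hU : Tendsto (fun g : Equiv.Perm ℕ => g • z) U (𝓝 w)) {a : ℕ} (ha : Ess z a) :
    ∃ b, ∀ᶠ g in (U : Filter (Equiv.Perm ℕ)), g a = b := by
  classical
  obtain ⟨ε, hε, hεa⟩ := ha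
  set δ : ℝ := ε / 7 with hδ
  have hδ0 : 0 < δ := by positivity
  obtain ⟨K, hK⟩ := exists_supp z hδ0
  have hev : ∀ᶠ g in (U : Filter (Equiv.Perm ℕ)), dist (g • z) w < δ / 2 :=
    hU.eventually (Metric.ball_mem_nhds w (half_pos hδ0))
  obtain ⟨g₀, hg₀⟩ := hev.exists
  have hmem : ∀ᶠ g in (U : Filter (Equiv.Perm ℕ)), g a ∈ K.image g₀ := by
    filter_upwards [hev] with g hg
    set k : Equiv.Perm ℕ := g₀⁻¹ * g with hk
    have hkz : dist (k • z) z < δ := by
      have h1 : dist (k • z) z = dist (g • z) (g₀ • z) := by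
        rw [← dist_smul g₀ (k • z) z, ← mul_smul, hk, mul_inv_cancel_left]
      rw [h1]
      calc dist (g • z) (g₀ • z) ≤ dist (g • z) w + dist (g₀ • z) w := dist_triangle_right _ _ _
        _ < δ / 2 + δ / 2 := add_lt_add hg hg₀
        _ = δ := add_halves _
    have hkz' : dist (k⁻¹ • z) z < δ := by
      rw [← dist_smul k, smul_inv_smul, dist_comm]
      exact hkz
    have hS : Supp z (3 * δ) (K.image k.symm) := by
      intro σ hσ
      have h1 : dist (σ • z) (σ • (k⁻¹ • z)) < δ := by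
        rw [dist_smul, dist_comm]
        exact hkz'
      have h2 : dist (σ • (k⁻¹ • z)) (k⁻¹ • z) ≤ δ := by
        have h3 := hK (k * σ * k⁻¹) fun b hb => by
          have := hσ (k.symm b) (Finset.mem_image_of_mem _ hb)
          rw [Equiv.Perm.mul_apply, Equiv.Perm.mul_apply]
          change k (σ (k.symm b)) = b
          rw [this, Equiv.apply_symm_apply]
        have h4 : dist (σ • (k⁻¹ • z)) (k⁻¹ • z) = dist ((k * σ * k⁻¹) • z) z := by
          rw [← dist_smul k (σ • (k⁻¹ • z)) (k⁻¹ • z), smul_inv_smul, mul_smul (k * σ) k⁻¹ z,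
            mul_smul k σ]
        rw [h4]
        exact h3
      calc dist (σ • z) z ≤ dist (σ • z) (σ • (k⁻¹ • z)) + dist (σ • (k⁻¹ • z)) (k⁻¹ • z) +
            dist (k⁻¹ • z) z := dist_triangle4 _ _ _ _
        _ ≤ δ + δ + δ := add_le_add (add_le_add h1.le h2) hkz'.le
        _ = 3 * δ := by ring
    have h7 : Supp z ε (K ∩ K.image k.symm) := (supp_inter hK hS).mono (by linarith)
    have h8 := (Finset.mem_inter.1 (hεa _ h7)).2
    obtain ⟨b, hb, hba⟩ := Finset.mem_image.1 h8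
    refine Finset.mem_image.2 ⟨b, hb, ?_⟩
    have h9 : k a = b := by rw [← hba, Equiv.apply_symm_apply]
    have h10 : g a = g₀ (k a) := by
      rw [hk, ← Equiv.Perm.mul_apply, mul_inv_cancel_left]
    rw [h10, h9]
  have hU' : (⋃ b ∈ ((K.image g₀ : Finset ℕ) : Set ℕ), {g : Equiv.Perm ℕ | g a = b}) ∈ U := by
    have : {g : Equiv.Perm ℕ | g a ∈ K.image g₀} ⊆
        ⋃ b ∈ ((K.image g₀ : Finset ℕ) : Set ℕ), {g : Equiv.Perm ℕ | g a = b} := by
      intro g hg
      exact mem_biUnion (Finset.mem_coe.2 hg) rfl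
    exact mem_of_superset hmem this
  rw [Ultrafilter.finite_biUnion_mem_iff (K.image g₀).finite_toSet] at hU'
  obtain ⟨b, -, hb⟩ := hU'
  exact ⟨b, hb⟩

/-- uniqueness of limits -/
lemma limit_unique [ContinuousSMul (Equiv.Perm ℕ) Z] {z w w' : Z}
    {U U' : Ultrafilter (Equiv.Perm ℕ)}
    (hU : Tendsto (fun g : Equiv.Perm ℕ => g • z) U (𝓝 w))
    (hU' : Tendsto (fun g : Equiv.Perm ℕ => g • z) U' (𝓝 w')) {p p' : ℕ → ℕ}
    (hp : ∀ a, Ess z a → ∀ᶠ g in (U : Filter (Equiv.Perm ℕ)), g a = p a)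
    (hp' : ∀ a, Ess z a → ∀ᶠ g in (U' : Filter (Equiv.Perm ℕ)), g a = p' a)
    (h : Equiv.Perm ℕ) (hh : ∀ a, Ess z a → h (p a) = p' a) : w' = h • w := by
  refine dist_le_zero.1 (le_of_forall_pos_le_add fun ε hε => ?_)
  obtain ⟨F, hF, hFe⟩ := exists_supp_ess z (show 0 < ε / 3 by positivity)
  have h1 : ∀ᶠ g in (U : Filter (Equiv.Perm ℕ)), (∀ a ∈ F, g a = p a) ∧
      dist (g • z) w < ε / 3 := by
    refine Eventually.and ?_ (hU.eventually (Metric.ball_mem_nhds w (by positivity)))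
    rw [Filter.eventually_all_finset]
    exact fun a ha => hp a (hFe a ha)
  have h2 : ∀ᶠ g in (U' : Filter (Equiv.Perm ℕ)), (∀ a ∈ F, g a = p' a) ∧
      dist (g • z) w' < ε / 3 := by
    refine Eventually.and ?_ (hU'.eventually (Metric.ball_mem_nhds w' (by positivity)))
    rw [Filter.eventually_all_finset]
    exact fun a ha => hp' a (hFe a ha)
  obtain ⟨g, hg, hgw⟩ := h1.exists
  obtain ⟨g', hg', hgw'⟩ := h2.exists
  have h3 : dist (((h * g)⁻¹ * g') • z) z ≤ ε / 3 := hF _ fun a ha => by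
    rw [Equiv.Perm.mul_apply, Equiv.Perm.inv_eq_iff_eq, hg' a ha, Equiv.Perm.mul_apply, hg a ha,
      hh a (hFe a ha)]
  have h4 : dist (g' • z) ((h * g) • z) ≤ ε / 3 := by
    have : dist (g' • z) ((h * g) • z) = dist (((h * g)⁻¹ * g') • z) z := by
      rw [← dist_smul (h * g) (((h * g)⁻¹ * g') • z) z, ← mul_smul, mul_inv_cancel_left]
    rw [this]
    exact h3
  have h5 : dist ((h * g) • z) (h • w) < ε / 3 := by
    rw [mul_smul, dist_smul]
    exact hgw
  rw [zero_add]
  calc dist w' (h • w) ≤ dist w' (g' • z) + dist (g' • z) ((h * g) • z) +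
        dist ((h * g) • z) (h • w) := dist_triangle4 _ _ _ _
    _ ≤ ε / 3 + ε / 3 + ε / 3 := by
        refine add_le_add (add_le_add ?_ h4) h5.le
        rw [dist_comm]
        exact hgw'.le
    _ = ε := by ring

end

/-- two injections on `A` with ranges of the same co-cardinality differ by a permutation. -/
lemma exists_perm_of_encard {A : Set ℕ} {p p' : ℕ → ℕ} (hp : InjOn p A) (hp' : InjOn p' A)
    (h : ((p '' A)ᶜ).encard = ((p' '' A)ᶜ).encard) :
    ∃ σ : Equiv.Perm ℕ, ∀ a ∈ A, σ (p a) = p' a := by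
  classical
  have he1 : ∃ e : (p '' A : Set ℕ) ≃ (p' '' A : Set ℕ),
      ∀ a (ha : a ∈ A), (e ⟨p a, mem_image_of_mem p ha⟩ : ℕ) = p' a := by
    refine ⟨(Equiv.Set.imageOfInjOn p A hp).symm.trans (Equiv.Set.imageOfInjOn p' A hp'), ?_⟩
    intro a ha
    have h1 : (Equiv.Set.imageOfInjOn p A hp).symm ⟨p a, mem_image_of_mem p ha⟩ = ⟨a, ha⟩ := by
      rw [Equiv.symm_apply_eq]
      rfl
    rw [Equiv.trans_apply, h1]
    rfl
  have he2 : Nonempty (↥((p '' A)ᶜ) ≃ ↥((p' '' A)ᶜ)) := by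
    by_cases hfin : ((p '' A)ᶜ).Finite
    · have hfin' : ((p' '' A)ᶜ).Finite := by
        rw [← Set.encard_lt_top_iff] at hfin ⊢
        rwa [← h]
      have : Finite ↥((p '' A)ᶜ) := hfin.to_subtype
      have : Finite ↥((p' '' A)ᶜ) := hfin'.to_subtype
      have hc : Nat.card ↥((p '' A)ᶜ) = Nat.card ↥((p' '' A)ᶜ) := by
        rw [Nat.card_coe_set_eq, Nat.card_coe_set_eq, Set.ncard, Set.ncard, h]
      exact ⟨(Finite.equivFinOfCardEq hc).trans (Finite.equivFinOfCardEq rfl).symm⟩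
    · have hfin' : ¬ ((p' '' A)ᶜ).Finite := by
        rw [← Set.encard_lt_top_iff] at hfin ⊢
        rwa [← h]
      have : Infinite ↥((p '' A)ᶜ) := Set.infinite_coe_iff.2 hfin
      have : Infinite ↥((p' '' A)ᶜ) := Set.infinite_coe_iff.2 hfin'
      exact nonempty_equiv_of_countable
  obtain ⟨e1, he1⟩ := he1
  obtain ⟨e2⟩ := he2
  refine ⟨(Equiv.Set.sumCompl (p '' A)).symm.trans ((Equiv.sumCongr e1 e2).trans
    (Equiv.Set.sumCompl (p' '' A))), fun a ha => ?_⟩
  rw [Equiv.trans_apply, Equiv.Set.sumCompl_symm_apply_of_mem (mem_image_of_mem p ha)]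
  simp only [Equiv.trans_apply, Equiv.sumCongr_apply, Sum.map_inl, Equiv.Set.sumCompl_apply_inl]
  exact he1 a ha

end Pool.Agent.H4.TVI
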