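import Mathlib
import Pool.Agent.H4.TVI.Support

/-!
# Orbit closures in isometric actions of the symmetric group contain only countably many orbits
-/

set_option autoImplicit false
set_option linter.unusedSectionVars false

open Set Topology Filter MeasureTheory

namespace Pool.Agent.H4.TVI

attribute [local instance] Pool.Agent.H71.permTop

section

variable {Z : Type*} [MetricSpace Z] [MulAction (Equiv.Perm ℕ) Z]
  [IsIsometricSMul (Equiv.Perm ℕ) Z] [ContinuousSMul (Equiv.Perm ℕ) Z]

/-- every point of the closure of the orbit of `z` is a limit along an ultrafilter -/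
lemma exists_ultrafilter {z w : Z} (h : oc (Equiv.Perm ℕ) Z z w) :
    ∃ U : Ultrafilter (Equiv.Perm ℕ), Tendsto (fun g : Equiv.Perm ℕ => g • z) U (𝓝 w) := by
  have hne : (comap (fun g : Equiv.Perm ℕ => g • z) (𝓝 w)).NeBot := by
    refine comap_neBot fun t ht => ?_
    obtain ⟨ε, hε, hball⟩ := Metric.mem_nhds_iff.1 ht
    obtain ⟨g, hg⟩ := h ε hε
    refine ⟨g, hball ?_⟩
    rw [Metric.mem_ball, dist_comm]
    exact hg
  refine ⟨Ultrafilter.of (comap (fun g : Equiv.Perm ℕ => g • z) (𝓝 w)), ?_⟩
  exact tendsto_iff_comap.2 (Ultrafilter.of_le _)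

/-- a limit function on the essential points -/
lemma exists_limit_fun {z w : Z} (h : oc (Equiv.Perm ℕ) Z z w) :
    ∃ (U : Ultrafilter (Equiv.Perm ℕ)) (p : ℕ → ℕ),
      Tendsto (fun g : Equiv.Perm ℕ => g • z) U (𝓝 w) ∧
      (∀ a, Ess z a → ∀ᶠ g in (U : Filter (Equiv.Perm ℕ)), g a = p a) ∧
      InjOn p {a | Ess z a} := by
  classical
  obtain ⟨U, hU⟩ := exists_ultrafilter h
  have hp : ∀ a, ∃ b, Ess z a → ∀ᶠ g in (U : Filter (Equiv.Perm ℕ)), g a = b := by
    intro a
    by_cases ha : Ess z a
    · obtain ⟨b, hb⟩ := ess_limit hU ha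
      exact ⟨b, fun _ => hb⟩
    · exact ⟨0, fun h => absurd h ha⟩
  choose p hp using hp
  refine ⟨U, p, hU, hp, ?_⟩
  intro a ha b hb hab
  obtain ⟨g, hga, hgb⟩ := ((hp a ha).and (hp b hb)).exists
  exact g.injective (by rw [hga, hgb, hab])

/-- **The closure of every orbit contains only countably many orbits.** -/
theorem countable_orbits_in_closure (z : Z) :
    {q : Quotient (MulAction.orbitRel (Equiv.Perm ℕ) Z) |
      ∃ w, oc (Equiv.Perm ℕ) Z z w ∧ Quotient.mk _ w = q}.Countable := by
  classical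
  have hch : ∀ w : {w : Z // oc (Equiv.Perm ℕ) Z z w}, ∃ p : ℕ → ℕ,
      ∃ U : Ultrafilter (Equiv.Perm ℕ),
      Tendsto (fun g : Equiv.Perm ℕ => g • z) U (𝓝 (w : Z)) ∧
      (∀ a, Ess z a → ∀ᶠ g in (U : Filter (Equiv.Perm ℕ)), g a = p a) ∧
      InjOn p {a | Ess z a} := by
    intro w
    obtain ⟨U, p, h⟩ := exists_limit_fun w.2
    exact ⟨p, U, h⟩
  choose p U hU hp hinj using hch
  let c : {w : Z // oc (Equiv.Perm ℕ) Z z w} → ℕ∞ := fun w => ((p w '' {a | Ess z a})ᶜ).encard
  have key : ∀ w w', c w = c w' →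
      (Quotient.mk (MulAction.orbitRel (Equiv.Perm ℕ) Z) (w : Z)) = Quotient.mk _ (w' : Z) := by
    intro w w' h
    obtain ⟨σ, hσ⟩ := exists_perm_of_encard (hinj w) (hinj w') h
    have h1 := limit_unique (hU w) (hU w') (hp w) (hp w') σ hσ
    refine Quotient.sound ?_
    refine (MulAction.orbitRel _ _).symm ?_
    exact ⟨σ, h1.symm⟩
  have hs : {q : Quotient (MulAction.orbitRel (Equiv.Perm ℕ) Z) |
      ∃ w, oc (Equiv.Perm ℕ) Z z w ∧ Quotient.mk _ w = q} ⊆
      range (fun k : ℕ∞ => if h : ∃ w, c w = k then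
        (Quotient.mk (MulAction.orbitRel (Equiv.Perm ℕ) Z) ((h.choose : _) : Z))
        else Quotient.mk _ z) := by
    rintro q ⟨w, hw, rfl⟩
    refine ⟨c ⟨w, hw⟩, ?_⟩
    have hex : ∃ w', c w' = c ⟨w, hw⟩ := ⟨_, rfl⟩
    simp only [dif_pos hex]
    exact key _ _ hex.choose_spec
  exact (countable_range _).mono hs

end

/-- **Borel spaces over isometric ones.** A standard Borel space with an action of the symmetric
group of `ℕ` which has a Borel equivariant map with countable fibres into a separable metric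
space with a continuous isometric action has countably or perfectly many orbits. -/
theorem dichotomy_perm {X Z : Type*} [MeasurableSpace X] [StandardBorelSpace X]
    [MulAction (Equiv.Perm ℕ) X] [MetricSpace Z] [SecondCountableTopology Z] [MeasurableSpace Z]
    [BorelSpace Z] [MulAction (Equiv.Perm ℕ) Z] [IsIsometricSMul (Equiv.Perm ℕ) Z]
    [ContinuousSMul (Equiv.Perm ℕ) Z] (π : X → Z) (hπ : Measurable π)
    (heq : ∀ (g : Equiv.Perm ℕ) (x : X), π (g • x) = g • π x)
    (hfib : ∀ z, (π ⁻¹' {z}).Countable) :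
    Countable (Quotient (MulAction.orbitRel (Equiv.Perm ℕ) X)) ∨
    ∃ f : (ℕ → Bool) → X, Measurable f ∧
      ∀ x y, x ≠ y → ¬ ∃ g : Equiv.Perm ℕ, g • f x = f y := by
  classical
  letI := upgradeStandardBorel X
  obtain ⟨t', ht', hc, hpol⟩ := hπ.exists_continuous
  -- the pulled back relation
  let r : Setoid X := (oc (Equiv.Perm ℕ) Z).comap π
  by_cases hunc : Countable (Quotient r)
  · left
    -- a countable set of points of `Z` meeting every orbit of a point of the image
    have hT : ∃ T : Set Z, T.Countable ∧ ∀ x : X, ∃ g : Equiv.Perm ℕ, g • π x ∈ T := by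
      refine ⟨⋃ q : Quotient r, Quotient.out '' {c : Quotient (MulAction.orbitRel
        (Equiv.Perm ℕ) Z) | ∃ w, oc (Equiv.Perm ℕ) Z (π q.out) w ∧ Quotient.mk _ w = c}, ?_, ?_⟩
      · exact countable_iUnion fun q => (countable_orbits_in_closure _).image _
      · intro x
        have h1 : oc (Equiv.Perm ℕ) Z (π (Quotient.mk r x).out) (π x) :=
          Quotient.mk_out (s := r) x
        have h2 : (MulAction.orbitRel (Equiv.Perm ℕ) Z)
            (Quotient.mk (MulAction.orbitRel (Equiv.Perm ℕ) Z) (π x)).out (π x) :=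
          Quotient.mk_out (s := MulAction.orbitRel (Equiv.Perm ℕ) Z) (π x)
        obtain ⟨g, hg⟩ := h2
        refine ⟨g, mem_iUnion.2 ⟨Quotient.mk r x, ?_⟩⟩
        refine ⟨Quotient.mk (MulAction.orbitRel (Equiv.Perm ℕ) Z) (π x), ⟨π x, h1, rfl⟩, ?_⟩
        exact hg.symm
    obtain ⟨T, hTc, hT⟩ := hT
    have hXc : (π ⁻¹' T).Countable := by
      have : π ⁻¹' T = ⋃ t ∈ T, π ⁻¹' {t} := by
        ext x; simp
      rw [this]
      exact hTc.biUnion fun t _ => hfib t
    have : Countable (π ⁻¹' T) := hXc.to_subtype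
    refine Function.Surjective.countable (f := fun x : π ⁻¹' T =>
      (Quotient.mk (MulAction.orbitRel (Equiv.Perm ℕ) X) (x : X))) ?_
    intro q
    induction q using Quotient.inductionOn with
    | h x =>
      obtain ⟨g, hg⟩ := hT x
      refine ⟨⟨g • x, by rw [mem_preimage, heq]; exact hg⟩, ?_⟩
      refine Quotient.sound ?_
      exact ⟨g, rfl⟩
  · right
    have hcl : @IsClosed (X × X) (@instTopologicalSpaceProd X X t' t')
        {p : X × X | r p.1 p.2} := by
      letI := t'
      have : Continuous π := hc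
      exact (isClosed_oc (G := Equiv.Perm ℕ) (Z := Z)).preimage
        (by fun_prop : Continuous fun p : X × X => (π p.1, π p.2))
    obtain ⟨f, hf, hf'⟩ := @closed_relation X t' hpol r hcl hunc
    refine ⟨f, ?_, fun x y hxy hmem => hf' x y hxy ?_⟩
    · have hid : @Continuous X X t' (upgradeStandardBorel X).toTopologicalSpace id :=
        continuous_id_iff_le.2 ht'
      have hfc : @Continuous _ X _ (upgradeStandardBorel X).toTopologicalSpace f :=
        @Continuous.comp _ X X _ t' (upgradeStandardBorel X).toTopologicalSpace f id hid hf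
      exact @Continuous.measurable (ℕ → Bool) X _ _ _
        (upgradeStandardBorel X).toTopologicalSpace _ (upgradeStandardBorel X).toBorelSpace f hfc
    · obtain ⟨g, hg⟩ := hmem
      have h1 : oc (Equiv.Perm ℕ) Z (π (f x)) (π (f y)) := by
        rw [← hg, heq]
        exact oc_smul _ _
      exact h1

end Pool.Agent.H4.TVI
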