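import Mathlib
import Pool.Agent.H4.TVI.Orbits

/-!
# The left completion of the symmetric group of `ℕ` has countably many left orbits
-/

set_option autoImplicit false
set_option linter.unusedSectionVars false

open Set Topology Filter MeasureTheory

namespace Pool.Agent.H4.TVI

/-- groups in which every left-Cauchy sequence converges -/
lemma countablyManyLeftOrbits_of_complete {G : Type*} [Group G] [TopologicalSpace G]
    [IsTopologicalGroup G] (h : ∀ g : ℕ → G, LeftCauchy g → ∃ a, Tendsto g atTop (𝓝 a)) :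
    CountablyManyLeftOrbits G := by
  refine ⟨fun _ _ => 1, fun g hg => ?_⟩
  obtain ⟨a, ha⟩ := h g hg
  refine ⟨0, a, ?_⟩
  have : Tendsto (fun n => (g n)⁻¹ * a) atTop (𝓝 (a⁻¹ * a)) := ha.inv.mul_const a
  simpa using this

/-- finite products -/
lemma countablyManyLeftOrbits_prod {G H : Type*} [Group G] [TopologicalSpace G]
    [Group H] [TopologicalSpace H] (hG : CountablyManyLeftOrbits G)
    (hH : CountablyManyLeftOrbits H) : CountablyManyLeftOrbits (G × H) := by
  obtain ⟨c, hc⟩ := hG
  obtain ⟨d, hd⟩ := hH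
  refine ⟨fun i n => (c i.unpair.1 n, d i.unpair.2 n), fun g hg => ?_⟩
  obtain ⟨i, h, hi⟩ := hc (fun n => (g n).1) (fun V hV => by
    obtain ⟨N, hN⟩ := hg (Prod.fst ⁻¹' V) (continuous_fst.continuousAt.preimage_mem_nhds hV)
    exact ⟨N, fun m hm n hn => hN m hm n hn⟩)
  obtain ⟨j, k, hj⟩ := hd (fun n => (g n).2) (fun V hV => by
    obtain ⟨N, hN⟩ := hg (Prod.snd ⁻¹' V) (continuous_snd.continuousAt.preimage_mem_nhds hV)
    exact ⟨N, fun m hm n hn => hN m hm n hn⟩)
  refine ⟨Nat.pair i j, (h, k), ?_⟩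
  have := hi.prodMk_nhds hj
  simp only [Nat.unpair_pair]
  exact this

attribute [local instance] Pool.Agent.H71.permTop

/-- the standard injection of corank `k` (`k = 0` stands for infinite corank) -/
def stdInj (k : ℕ) (a : ℕ) : ℕ := if k = 0 then 2 * a else a + (k - 1)

lemma stdInj_injective (k : ℕ) : Function.Injective (stdInj k) := by
  intro a b h
  unfold stdInj at h
  split_ifs at h <;> omega

lemma exists_stdInj (m : ℕ∞) : ∃ k, ((stdInj k '' univ)ᶜ).encard = m := by
  rcases eq_or_ne m ⊤ with rfl | hm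
  · refine ⟨0, ?_⟩
    rw [Set.encard_eq_top_iff]
    refine Set.infinite_of_injective_forall_mem (f := fun n : ℕ => 2 * n + 1)
      (fun a b h => by simpa using h) ?_
    rintro n ⟨a, -, ha⟩
    unfold stdInj at ha
    simp at ha
    omega
  · obtain ⟨n, rfl⟩ := ENat.ne_top_iff_exists.1 hm
    refine ⟨n + 1, ?_⟩
    have : (stdInj (n + 1) '' univ)ᶜ = ((Finset.range n : Finset ℕ) : Set ℕ) := by
      ext a
      simp only [mem_compl_iff, mem_image, mem_univ, true_and, Finset.coe_range, mem_Iio]
      constructor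
      · intro h
        by_contra hcon
        refine h ⟨a - n, ?_⟩
        unfold stdInj
        simp
        omega
      · rintro h ⟨b, hb⟩
        unfold stdInj at hb
        simp at hb
        omega
    rw [this, Set.encard_coe_eq_coe_finsetCard, Finset.card_range]

/-- **(SC) for the symmetric group.** -/
theorem countablyManyLeftOrbits_perm : CountablyManyLeftOrbits (Equiv.Perm ℕ) := by
  classical
  have hc : ∀ k n : ℕ, ∃ σ : Equiv.Perm ℕ, ∀ a ∈ Finset.range n, σ a = stdInj k a :=
    fun k n => exists_perm_extend _ _ ((stdInj_injective k).injOn)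
  choose c hc using hc
  refine ⟨c, fun g hg => ?_⟩
  have hlim : ∀ a, ∃ b, ∀ᶠ n in atTop, g n a = b := by
    intro a
    have hV : {σ : Equiv.Perm ℕ | σ a = a} ∈ 𝓝 (1 : Equiv.Perm ℕ) :=
      (Pool.Agent.H71.isOpen_apply_eq a a).mem_nhds rfl
    obtain ⟨N, hN⟩ := hg _ hV
    refine ⟨g N a, ?_⟩
    filter_upwards [eventually_ge_atTop N] with n hn
    have h1 : ((g N)⁻¹ * g n) a = a := hN N le_rfl n hn
    rw [Equiv.Perm.mul_apply, Equiv.Perm.inv_eq_iff_eq] at h1
    exact h1
  choose f hf using hlim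
  have hfinj : Function.Injective f := by
    intro a b hab
    obtain ⟨n, hna, hnb⟩ := ((hf a).and (hf b)).exists
    exact (g n).injective (by rw [hna, hnb, hab])
  obtain ⟨k, hk⟩ := exists_stdInj (((f '' univ)ᶜ).encard)
  obtain ⟨h, hh⟩ := exists_perm_of_encard ((stdInj_injective k).injOn) (hfinj.injOn) hk
  refine ⟨k, h, ?_⟩
  have hev : ∀ a, ∀ᶠ n in atTop, ((g n)⁻¹ * (h * c k n)) a = a := by
    intro a
    filter_upwards [hf a, eventually_gt_atTop a] with n hn hna
    rw [Equiv.Perm.mul_apply, Equiv.Perm.inv_eq_iff_eq, Equiv.Perm.mul_apply,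
      hc k n a (Finset.mem_range.2 hna), hh a (mem_univ a), hn]
  refine Pool.Agent.H71.tendsto_perm hev fun a => ?_
  filter_upwards [hev a] with n hn
  change ((g n)⁻¹ * (h * c k n)).symm a = a
  rw [Equiv.symm_apply_eq, hn]

end Pool.Agent.H4.TVI
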